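import Mathlib
import Pool.Agent.N741.HB.Stm2

/-!
# Counting lemmas (helper741)
-/

set_option autoImplicit false

namespace Pool.Agent.N741.SU

/-- counting by fibres -/
theorem fib {α β : Type} [DecidableEq β] (T : Finset α) (f : α → β) (k l : ℝ) (hk : 0 ≤ k)
    (h1 : ∀ b ∈ T.image f, ((T.filter fun t => f t = b).card : ℝ) ≤ k)
    (h2 : ((T.image f).card : ℝ) ≤ l) : (T.card : ℝ) ≤ l * k := by
  rw [Finset.card_eq_sum_card_image f T]
  push_cast
  calc ∑ b ∈ T.image f, (((T.filter fun t => f t = b).card : ℕ) : ℝ)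
      ≤ ∑ _b ∈ T.image f, k := Finset.sum_le_sum h1
    _ = ((T.image f).card : ℝ) * k := by rw [Finset.sum_const, nsmul_eq_mul]
    _ ≤ l * k := mul_le_mul_of_nonneg_right h2 hk

theorem expo_le {b m M : ℕ} {V : ℝ} (hb : 2 ≤ b) (h : ((b ^ m : ℕ) : ℝ) ≤ Real.exp V)
    (hM : 2 * V ≤ M) : m ≤ M := by
  have h3 : (2 : ℝ) ^ m ≤ Real.exp V := by
    refine le_trans ?_ h
    push_cast
    exact pow_le_pow_left₀ (by norm_num) (by exact_mod_cast hb) _
  have h4 : (m : ℝ) * Real.log 2 ≤ V := by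
    rw [← Real.log_pow, ← Real.exp_le_exp, Real.exp_log (by positivity)]
    exact h3
  have h5 : (1 : ℝ) / 2 ≤ Real.log 2 := by
    have := Real.log_two_gt_d9
    linarith
  have h6 : (m : ℝ) * (1 / 2) ≤ (m : ℝ) * Real.log 2 :=
    mul_le_mul_of_nonneg_left h5 (Nat.cast_nonneg _)
  have h7 : (m : ℝ) ≤ M := by linarith
  exact_mod_cast h7

/-- the number of `S`-units -/
theorem sunits (S : Finset ℕ) {V : ℝ} {M : ℕ} (hM : 2 * V ≤ M) (C : Finset ℤ)
    (hC : ∀ c ∈ C, c ≠ 0 ∧ (∀ l : ℕ, l.Prime → (l : ℤ) ∣ c → l ∈ S) ∧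
      ((|c| : ℤ) : ℝ) ≤ Real.exp V) : C.card ≤ 2 * (M + 1) ^ S.card := by
  classical
  let g : ℤ → Bool × (S → ℕ) := fun c => (decide (0 ≤ c), fun l => c.natAbs.factorization l)
  have hinj : Set.InjOn g (C : Set ℤ) := by
    intro c hc c' hc' h
    obtain ⟨c0, cS, -⟩ := hC c (Finset.mem_coe.1 hc)
    obtain ⟨c0', cS', -⟩ := hC c' (Finset.mem_coe.1 hc')
    simp only [g, Prod.mk.injEq] at h
    obtain ⟨h1, h2⟩ := h
    have h3 : c.natAbs = c'.natAbs := by
      refine Nat.eq_of_factorization_eq (Int.natAbs_ne_zero.2 c0) (Int.natAbs_ne_zero.2 c0') ?_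
      intro l
      by_cases hl : l ∈ S
      · exact congrFun h2 ⟨l, hl⟩
      · by_cases hp : l.Prime
        · rw [Nat.factorization_eq_zero_of_not_dvd, Nat.factorization_eq_zero_of_not_dvd]
          · intro hd
            exact hl (cS' l hp (Int.natCast_dvd.2 hd))
          · intro hd
            exact hl (cS l hp (Int.natCast_dvd.2 hd))
        · rw [Nat.factorization_eq_zero_of_not_prime _ hp, Nat.factorization_eq_zero_of_not_prime _ hp]
    rcases Int.natAbs_eq_natAbs_iff.1 h3 with h4 | h4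
    · exact h4
    · have h5 : (0 ≤ c) ↔ (0 ≤ c') := by simpa using h1
      omega
  have hsub : C.image g ⊆ (Finset.univ : Finset Bool) ×ˢ
      Fintype.piFinset (fun _ : S => Finset.range (M + 1)) := by
    intro v hv
    obtain ⟨c, hc, rfl⟩ := Finset.mem_image.1 hv
    obtain ⟨c0, cS, cb⟩ := hC c hc
    refine Finset.mem_product.2 ⟨Finset.mem_univ _, Fintype.mem_piFinset.2 fun l => ?_⟩
    rw [Finset.mem_range, Nat.lt_succ_iff]
    show c.natAbs.factorization l ≤ M
    by_cases hp : (l : ℕ).Prime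
    · refine expo_le hp.two_le ?_ hM
      refine le_trans ?_ cb
      rw [Int.abs_eq_natAbs]
      have : (l : ℕ) ^ c.natAbs.factorization l ≤ c.natAbs :=
        Nat.le_of_dvd (Int.natAbs_pos.2 c0) (Nat.ordProj_dvd _ _)
      exact_mod_cast this
    · rw [Nat.factorization_eq_zero_of_not_prime _ hp]
      exact Nat.zero_le _
  calc C.card = (C.image g).card := (Finset.card_image_of_injOn hinj).symm
    _ ≤ _ := Finset.card_le_card hsub
    _ = 2 * (M + 1) ^ S.card := by
        rw [Finset.card_product, Fintype.card_piFinset]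
        simp

end Pool.Agent.N741.SU
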