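import Mathlib
import Pool.Agent.N741.SU.Cnt

/-!
# Terms with `S`-unit coefficients: the count for large terms (helper741)
-/

set_option autoImplicit false

namespace Pool.Agent.N741.SU

open MvPolynomial Pool.Agent.N741.HB

/-- a triple of terms `X + Y = c z ^ r` -/
structure Pt (S : Finset ℕ) (N R : ℕ) (δ : ℝ) (Y : ℕ) (t : ℤ × ℤ × ℤ) (w : Fin N → ℕ)
    (e : Fin 2 → Fin N → ℕ) (c z : ℤ) (r : ℕ) : Prop where
  x0 : t.1 ≠ 0
  y0 : t.2.1 ≠ 0
  sum : t.1 + t.2.1 = t.2.2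
  cop : Nat.Coprime t.1.natAbs t.2.1.natAbs
  bx : ((|t.1| : ℤ) : ℝ) ≤ Real.exp ((Y : ℝ) ^ δ)
  b_y : ((|t.2.1| : ℤ) : ℝ) ≤ Real.exp ((Y : ℝ) ^ δ)
  bz : ((|t.2.2| : ℤ) : ℝ) ≤ Real.exp ((Y : ℝ) ^ δ)
  hw : ∀ j, 1 ≤ w j ∧ w j ≤ Y
  hx : t.1.natAbs = ∏ j, w j ^ e 0 j
  h_y : t.2.1.natAbs = ∏ j, w j ^ e 1 j
  c0 : c ≠ 0
  cS : ∀ l : ℕ, l.Prime → (l : ℤ) ∣ c → l ∈ S
  hz : t.2.2 = c * z ^ r
  z0 : z ≠ 0
  hr : R ≤ r

/-- the large part -/
def lar {N : ℕ} (R1 : ℕ) (w e : Fin N → ℕ) : ℕ := ∏ j, if R1 ≤ e j then w j ^ e j else 1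

/-- the small part -/
def sma {N : ℕ} (R1 : ℕ) (w e : Fin N → ℕ) : ℕ := ∏ j, if R1 ≤ e j then 1 else w j ^ e j

theorem sma_mul_lar {N : ℕ} (R1 : ℕ) (w e : Fin N → ℕ) :
    sma R1 w e * lar R1 w e = ∏ j, w j ^ e j := by
  unfold sma lar
  rw [← Finset.prod_mul_distrib]
  refine Finset.prod_congr rfl fun j _ => ?_
  split_ifs
  · rw [one_mul]
  · rw [mul_one]

theorem sma_le {N R1 Y : ℕ} (hY : 1 ≤ Y) (w e : Fin N → ℕ) (hw : ∀ j, 1 ≤ w j ∧ w j ≤ Y) :
    sma R1 w e ≤ Y ^ (N * R1) := by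
  calc (∏ j, if R1 ≤ e j then 1 else w j ^ e j) ≤ ∏ _j : Fin N, Y ^ R1 := by
        refine Finset.prod_le_prod' fun j _ => ?_
        split_ifs with h
        · exact Nat.one_le_pow _ _ hY
        · exact (Nat.pow_le_pow_left (hw j).2 _).trans (Nat.pow_le_pow_right hY (by omega))
    _ = Y ^ (N * R1) := by
        rw [Finset.prod_const, Finset.card_univ, Fintype.card_fin, ← pow_mul, mul_comm]

theorem Pt.lh {S : Finset ℕ} {N R R1 : ℕ} {δ δ1 : ℝ} {Y : ℕ} {t : ℤ × ℤ × ℤ} {w : Fin N → ℕ}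
    {e : Fin 2 → Fin N → ℕ} {c z : ℤ} {r : ℕ} (h : Pt S N R δ Y t w e c z r) (hY : 1 ≤ Y)
    (hδ : δ ≤ δ1) (hR : R1 ≤ R) (hR0 : 1 ≤ R) :
    LhPt 2 N 0 R1 δ1 Y (fun _ => 1) c (fun i => lar R1 w (e i)) := by
  have hexp : Real.exp ((Y : ℝ) ^ δ) ≤ Real.exp ((Y : ℝ) ^ δ1) :=
    Real.exp_le_exp.2 (Real.rpow_le_rpow_of_exponent_le (by exact_mod_cast hY) hδ)
  have e0 : ∀ i : Fin 2, i = 0 ∨ i = 1 := by
    intro i
    fin_cases i
    · exact Or.inl rfl
    · exact Or.inr rfl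
  have z3 : t.2.2 ≠ 0 := by
    rw [h.hz]
    exact mul_ne_zero h.c0 (pow_ne_zero _ h.z0)
  refine ⟨![t.1, t.2.1], ![t.1.sign, t.2.1.sign], w, e, 1, fun _ => 0, z, r, ?_, ?_, ?_, h.hw, ?_,
    ?_, ?_, fun i => rfl, ?_, hR.trans h.hr, ?_, ?_⟩
  · intro d hd
    have d1 : (d : ℤ) ∣ t.1 := hd 0
    have d2 : (d : ℤ) ∣ t.2.1 := hd 1
    exact Nat.eq_one_of_dvd_coprimes h.cop (Int.natCast_dvd.1 d1) (Int.natCast_dvd.1 d2)
  · intro J hJ
    by_cases j0 : (0 : Fin 2) ∈ J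
    · by_cases j1 : (1 : Fin 2) ∈ J
      · have hJu : J = Finset.univ := by
          ext i
          rcases e0 i with rfl | rfl
          · simp [j0]
          · simp [j1]
        rw [hJu, Fin.sum_univ_two]
        show 1 * t.1 + 1 * t.2.1 ≠ 0
        rw [one_mul, one_mul, h.sum]
        exact z3
      · have hJu : J = {0} := by
          ext i
          rcases e0 i with rfl | rfl
          · simp [j0]
          · simp [j1]
        rw [hJu, Finset.sum_singleton]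
        show 1 * t.1 ≠ 0
        rw [one_mul]
        exact h.x0
    · have hJu : J = {1} := by
        obtain ⟨i, hi⟩ := hJ
        have hi1 : i = 1 := by
          rcases e0 i with rfl | rfl
          · exact absurd hi j0
          · rfl
        subst hi1
        ext k
        rcases e0 k with rfl | rfl
        · simp [j0]
        · simp [hi]
      rw [hJu, Finset.sum_singleton]
      show 1 * t.2.1 ≠ 0
      rw [one_mul]
      exact h.y0
  · intro i
    rcases e0 i with rfl | rfl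
    · exact h.bx.trans hexp
    · exact h.b_y.trans hexp
  · intro i
    rw [pow_zero]
    rcases e0 i with rfl | rfl
    · show |t.1.sign| ≤ 1
      rw [Int.abs_sign_of_ne_zero h.x0]
    · show |t.2.1.sign| ≤ 1
      rw [Int.abs_sign_of_ne_zero h.y0]
  · rw [pow_zero, abs_one]
  · intro i
    rcases e0 i with rfl | rfl
    · show t.1 = t.1.sign * ∏ j, (w j : ℤ) ^ e 0 j
      have := h.hx
      have h2 : ((t.1.natAbs : ℕ) : ℤ) = ∏ j, (w j : ℤ) ^ e 0 j := by
        rw [this]; push_cast; rfl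
      rw [← h2]
      exact (Int.sign_mul_natAbs t.1).symm
    · show t.2.1 = t.2.1.sign * ∏ j, (w j : ℤ) ^ e 1 j
      have := h.h_y
      have h2 : ((t.2.1.natAbs : ℕ) : ℤ) = ∏ j, (w j : ℤ) ^ e 1 j := by
        rw [this]; push_cast; rfl
      rw [← h2]
      exact (Int.sign_mul_natAbs t.2.1).symm
  · simp only [pow_zero, Finset.prod_const_one]
    exact Real.one_le_exp (by positivity)
  · refine le_trans ?_ (h.bz.trans hexp)
    have h1 : |z| ≤ |t.2.2| := by
      rw [h.hz, abs_mul, abs_pow]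
      have a1 : 1 ≤ |c| := Int.one_le_abs h.c0
      have a2 : 1 ≤ |z| := Int.one_le_abs h.z0
      calc |z| ≤ |z| ^ r := le_self_pow₀ a2 (by have := h.hr; omega)
        _ ≤ |c| * |z| ^ r := le_mul_of_one_le_left (by positivity) a1
    exact_mod_cast h1
  · rw [Fin.sum_univ_two]
    show 1 * t.1 + 1 * t.2.1 = _
    rw [one_mul, one_mul, h.sum, h.hz]
    simp

/-- uniqueness -/
theorem uniq {X Y X' Y' s1 s2 s1' s2' A1 A2 : ℤ} {B : ℤ} (h1 : X = s1 * A1) (h2 : Y = s2 * A2)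
    (h1' : X' = s1' * A1) (h2' : Y' = s2' * A2) (hs : X + Y = X' + Y') (hX : X ≠ 0) (hY : Y ≠ 0)
    (hc : IsCoprime A1 A2) (b1 : |s1| ≤ B) (b2 : |s2| ≤ B) (b1' : |s1'| ≤ B) (b2' : |s2'| ≤ B)
    (hbig : 2 * B * B < |X| ∨ 2 * B * B < |Y|) : X = X' ∧ Y = Y' := by
  have key : A1 * (s1 - s1') = A2 * (s2' - s2) := by
    rw [h1, h2, h1', h2'] at hs
    linarith
  have hB0 : 0 ≤ B := (abs_nonneg _).trans b1
  rcases hbig with hb | hb
  · have h3 : A1 ∣ s2' - s2 := hc.dvd_of_dvd_mul_left ⟨_, key.symm⟩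
    have h4 : |s2' - s2| < |A1| := by
      have h5 : |s2' - s2| ≤ 2 * B := by
        rw [abs_le] at *
        constructor <;> linarith [b2.1, b2.2, b2'.1, b2'.2]
      have h6 : |X| ≤ B * |A1| := by
        rw [h1, abs_mul]
        exact mul_le_mul_of_nonneg_right b1 (abs_nonneg _)
      have hB : 0 < B := by
        rcases hB0.lt_or_eq with h | h
        · exact h
        · exfalso
          rw [← h, zero_mul] at h6
          exact hX (abs_eq_zero.1 (le_antisymm h6 (abs_nonneg _)))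
      have h7 : 2 * B * B < |A1| * B := by linarith
      have h8 : 2 * B < |A1| := lt_of_mul_lt_mul_right h7 hB0
      linarith
    have h5 : s2' - s2 = 0 := Int.eq_zero_of_abs_lt_dvd ((abs_dvd _ _).2 h3) h4
    have h6 : Y = Y' := by
      rw [h2, h2']
      have : s2 = s2' := by linarith
      rw [this]
    exact ⟨by linarith, h6⟩
  · have h3 : A2 ∣ s1 - s1' := hc.symm.dvd_of_dvd_mul_left ⟨_, key⟩
    have h4 : |s1 - s1'| < |A2| := by
      have h5 : |s1 - s1'| ≤ 2 * B := by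
        rw [abs_le] at *
        constructor <;> linarith [b1.1, b1.2, b1'.1, b1'.2]
      have h6 : |Y| ≤ B * |A2| := by
        rw [h2, abs_mul]
        exact mul_le_mul_of_nonneg_right b2 (abs_nonneg _)
      have hB : 0 < B := by
        rcases hB0.lt_or_eq with h | h
        · exact h
        · exfalso
          rw [← h, zero_mul] at h6
          exact hY (abs_eq_zero.1 (le_antisymm h6 (abs_nonneg _)))
      have h7 : 2 * B * B < |A2| * B := by linarith
      have h8 : 2 * B < |A2| := lt_of_mul_lt_mul_right h7 hB0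
      linarith
    have h5 : s1 - s1' = 0 := Int.eq_zero_of_abs_lt_dvd ((abs_dvd _ _).2 h3) h4
    have h6 : X = X' := by
      rw [h1, h1']
      have : s1 = s1' := by linarith
      rw [this]
    exact ⟨h6, by linarith⟩

end Pool.Agent.N741.SU
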