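import Mathlib
import Pool.Agent.N741.SU.Big

/-!
# Terms with `S`-unit coefficients: the number of values of the third term (helper741)
-/

set_option autoImplicit false

namespace Pool.Agent.N741.SU

open MvPolynomial Pool.Agent.N741.HB

theorem zcount {R2 Y' M : ℕ} {δ2 ε2 V : ℝ} (hY' : 1 ≤ Y') (hδ2 : 0 < δ2)
    (hpv : ∀ (D : ℕ) (F : MvPolynomial (Fin 2) ℤ), 1 ≤ D → (D : ℝ) ≤ (Y' : ℝ) ^ δ2 →
      F.totalDegree ≤ D → (∀ m, ((|F.coeff m| : ℤ) : ℝ) ≤ Real.exp ((Y' : ℝ) ^ δ2)) →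
      ∀ T : Finset ℤ, (∀ w ∈ T, ∃ (x : Fin 2 → ℤ) (s z : ℤ) (r : ℕ),
        (∀ j, |x j| ≤ (Y' : ℤ)) ∧ s ≠ 0 ∧ |s| ≤ (Y' : ℤ) ^ 0 ∧ 2 ≤ |z| ∧ R2 * D ≤ r ∧ w = z ^ r ∧
        eval x F = s * w) → (T.card : ℝ) ≤ (Y' : ℝ) ^ ε2)
    (hM : 2 * V ≤ M) (hV : ((M : ℝ) + 1) * V ≤ (Y' : ℝ) ^ δ2) {c : ℤ} (hc : c ≠ 0) {a1 a2 : ℕ}
    (ha1 : (a1 : ℝ) ≤ Real.exp V) (ha2 : (a2 : ℝ) ≤ Real.exp V) (Zs : Finset ℤ)
    (hZ : ∀ Z ∈ Zs, ((|Z| : ℤ) : ℝ) ≤ Real.exp V ∧ ∃ (s1 s2 z : ℤ) (r : ℕ), |s1| ≤ (Y' : ℤ) ∧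
      |s2| ≤ (Y' : ℤ) ∧ s1 * a1 + s2 * a2 = Z ∧ Z = c * z ^ r ∧ z ≠ 0 ∧ R2 ≤ r ∧ 1 ≤ r) :
    (Zs.card : ℝ) ≤ 2 + ((M : ℝ) + 1) * (Y' : ℝ) ^ ε2 := by
  classical
  obtain ⟨Zr, hZr⟩ : ∃ Zr : ℕ → Finset ℤ, Zr = fun r => Zs.filter fun Z => ∃ (s1 s2 z : ℤ),
    |s1| ≤ (Y' : ℤ) ∧ |s2| ≤ (Y' : ℤ) ∧ s1 * a1 + s2 * a2 = Z ∧ Z = c * z ^ r ∧ 2 ≤ |z| ∧
      R2 ≤ r ∧ 1 ≤ r := ⟨_, rfl⟩
  have hsub : Zs ⊆ {c, -c} ∪ (Finset.range (M + 1)).biUnion Zr := by
    intro Z hZs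
    obtain ⟨hb, s1, s2, z, r, h1, h2, h3, h4, h5, h6, h7⟩ := hZ Z hZs
    rw [Finset.mem_union]
    by_cases hz : 2 ≤ |z|
    · right
      refine Finset.mem_biUnion.2 ⟨r, ?_, ?_⟩
      · rw [Finset.mem_range, Nat.lt_succ_iff]
        refine expo_le (b := z.natAbs) (by rw [Int.abs_eq_natAbs] at hz; exact_mod_cast hz) ?_ hM
        refine le_trans ?_ hb
        have e1 : |Z| = |c| * |z| ^ r := by rw [h4, abs_mul, abs_pow]
        have e2 : 1 ≤ |c| := Int.one_le_abs hc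
        have e3 : |z| ^ r ≤ |Z| := by
          rw [e1]
          exact le_mul_of_one_le_left (by positivity) e2
        have e4 : ((z.natAbs ^ r : ℕ) : ℤ) ≤ |Z| := by
          push_cast
          exact e3
        have e5 : (((z.natAbs ^ r : ℕ) : ℤ) : ℝ) ≤ ((|Z| : ℤ) : ℝ) := Int.cast_le.2 e4
        rwa [Int.cast_natCast] at e5
      · rw [hZr]
        exact Finset.mem_filter.2 ⟨hZs, s1, s2, z, h1, h2, h3, h4, hz, h6, h7⟩
    · left
      have hz1 : |z| = 1 := le_antisymm (by omega) (Int.one_le_abs h5)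
      rcases (abs_eq (by norm_num : (0 : ℤ) ≤ 1)).1 hz1 with h8 | h8
      · rw [h4, h8, one_pow, mul_one]
        simp
      · rw [h4, h8]
        rcases neg_one_pow_eq_or ℤ r with h9 | h9
        · rw [h9, mul_one]; simp
        · rw [h9, mul_neg_one]; simp
  have hr : ∀ r ∈ Finset.range (M + 1), ((Zr r).card : ℝ) ≤ (Y' : ℝ) ^ ε2 := by
    intro r hrM
    rcases (Zr r).eq_empty_or_nonempty with hemp | ⟨Z0, hZ0⟩
    · rw [hemp, Finset.card_empty, Nat.cast_zero]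
      positivity
    have hcb : ((|c| : ℤ) : ℝ) ≤ Real.exp V := by
      rw [hZr] at hZ0
      obtain ⟨hZ0s, s1, s2, z, -, -, -, h4, h5, -, -⟩ := Finset.mem_filter.1 hZ0
      refine le_trans ?_ (hZ Z0 hZ0s).1
      have : |c| ≤ |Z0| := by
        rw [h4, abs_mul, abs_pow]
        exact le_mul_of_one_le_right (abs_nonneg _) (one_le_pow₀ (by omega))
      exact_mod_cast this
    have hinj : Function.Injective (fun Z : ℤ => c ^ (r - 1) * Z) := fun Z Z' h =>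
      mul_left_cancel₀ (pow_ne_zero _ hc) h
    rw [← Finset.card_image_of_injective _ hinj]
    have hV0 : 0 ≤ V := by
      rw [← Real.exp_le_exp, Real.exp_zero]
      refine le_trans ?_ hcb
      exact_mod_cast Int.one_le_abs hc
    have hco : ∀ a : ℕ, (a : ℝ) ≤ Real.exp V → ((|(a : ℤ) * c ^ (r - 1)| : ℤ) : ℝ) ≤
        Real.exp ((Y' : ℝ) ^ δ2) := by
      intro a ha
      rw [abs_mul, abs_pow, Nat.abs_cast, Int.cast_mul, Int.cast_pow, Int.cast_natCast]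
      have h1 : (((|c| : ℤ) : ℝ)) ^ (r - 1) ≤ Real.exp V ^ (r - 1) :=
        pow_le_pow_left₀ (by exact_mod_cast abs_nonneg c) hcb _
      have h2 : Real.exp V ^ (r - 1) = Real.exp (((r - 1 : ℕ) : ℝ) * V) :=
        (Real.exp_nat_mul V (r - 1)).symm
      calc (a : ℝ) * ((|c| : ℤ) : ℝ) ^ (r - 1) ≤ Real.exp V * Real.exp (((r - 1 : ℕ) : ℝ) * V) := by
            rw [← h2]
            exact mul_le_mul ha h1 (by positivity) (Real.exp_pos _).le
        _ = Real.exp (V + ((r - 1 : ℕ) : ℝ) * V) := (Real.exp_add _ _).symm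
        _ ≤ Real.exp ((Y' : ℝ) ^ δ2) := by
            refine Real.exp_le_exp.2 (le_trans ?_ hV)
            have h3 : ((r - 1 : ℕ) : ℝ) ≤ M := by
              have := Finset.mem_range.1 hrM
              exact_mod_cast (by omega : r - 1 ≤ M)
            nlinarith
    refine hpv 1 (C ((a1 : ℤ) * c ^ (r - 1)) * X 0 + C ((a2 : ℤ) * c ^ (r - 1)) * X 1) le_rfl
      ?_ ?_ ?_ _ ?_
    · rw [Nat.cast_one]
      exact Real.one_le_rpow (by exact_mod_cast hY') hδ2.le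
    · refine (totalDegree_add _ _).trans (max_le ?_ ?_)
      · refine (totalDegree_mul _ _).trans ?_
        rw [totalDegree_C, totalDegree_X]
      · refine (totalDegree_mul _ _).trans ?_
        rw [totalDegree_C, totalDegree_X]
    · intro k
      rw [coeff_add, coeff_C_mul, coeff_C_mul, coeff_X, coeff_X]
      by_cases hk0 : Finsupp.single (0 : Fin 2) 1 = k
      · have hk1 : Finsupp.single (1 : Fin 2) 1 ≠ k := by
          intro hk1
          rw [← hk0] at hk1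
          have := DFunLike.congr_fun hk1 (0 : Fin 2)
          simp at this
        rw [if_pos hk0, if_neg hk1, mul_one, mul_zero, add_zero]
        exact hco a1 ha1
      · rw [if_neg hk0, mul_zero, zero_add]
        by_cases hk1 : Finsupp.single (1 : Fin 2) 1 = k
        · rw [if_pos hk1, mul_one]
          exact hco a2 ha2
        · rw [if_neg hk1, mul_zero, abs_zero, Int.cast_zero]
          exact (Real.exp_pos _).le
    · intro w hw
      obtain ⟨Z, hZm, rfl⟩ := Finset.mem_image.1 hw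
      rw [hZr] at hZm
      obtain ⟨-, s1, s2, z, h1, h2, h3, h4, h5, h6, h7⟩ := Finset.mem_filter.1 hZm
      refine ⟨![s1, s2], 1, c * z, r, ?_, one_ne_zero, by simp, ?_, by rw [mul_one]; exact h6, ?_,
        ?_⟩
      · intro j
        fin_cases j
        · exact h1
        · exact h2
      · rw [abs_mul]
        have := Int.one_le_abs hc
        nlinarith
      · show c ^ (r - 1) * Z = (c * z) ^ r
        rw [h4, mul_pow]
        obtain ⟨k, rfl⟩ : ∃ k, r = k + 1 := ⟨r - 1, by omega⟩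
        rw [Nat.add_sub_cancel, pow_succ c k]
        ring
      · simp only [eval_add, eval_mul, eval_C, eval_X, Matrix.cons_val_zero, Matrix.cons_val_one]
        rw [← h3]
        ring
  have h1 : Zs.card ≤ 2 + ∑ r ∈ Finset.range (M + 1), (Zr r).card := by
    refine (Finset.card_le_card hsub).trans ((Finset.card_union_le _ _).trans ?_)
    refine Nat.add_le_add ?_ Finset.card_biUnion_le
    exact (Finset.card_insert_le _ _).trans (by rw [Finset.card_singleton])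
  have h2 : (Zs.card : ℝ) ≤ 2 + ∑ r ∈ Finset.range (M + 1), ((Zr r).card : ℝ) := by
    exact_mod_cast h1
  refine h2.trans (add_le_add le_rfl ((Finset.sum_le_sum hr).trans ?_))
  rw [Finset.sum_const, Finset.card_range, nsmul_eq_mul]
  push_cast
  exact le_rfl

end Pool.Agent.N741.SU
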