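import Mathlib
import Pool.Agent.N741.SU.Zc

/-!
# Terms with `S`-unit coefficients: large terms (helper741)
-/

set_option autoImplicit false

namespace Pool.Agent.N741.SU

open MvPolynomial Pool.Agent.N741.HB

theorem big (h1 : S_lp) (h2 : S_pv) (S : Finset ℕ) (N : ℕ) (ε : ℝ) (hε : 0 < ε) :
    ∃ (R K : ℕ) (δ : ℝ) (Y₀ : ℕ), 0 < δ ∧ ∀ Y : ℕ, Y₀ ≤ Y → ∀ T : Finset (ℤ × ℤ × ℤ),
      (∀ t ∈ T, (∃ w e c z r, Pt S N R δ Y t w e c z r) ∧
        ((Y : ℤ) ^ K < |t.1| ∨ (Y : ℤ) ^ K < |t.2.1|)) → (T.card : ℝ) ≤ (Y : ℝ) ^ ε := by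
  classical
  obtain ⟨R1, δ1, hδ1, hlp⟩ := h1 2 N 0 (ε / 4) (by positivity)
  obtain ⟨K', hK'⟩ : ∃ K', K' = N * R1 + 1 := ⟨_, rfl⟩
  have hK0 : (0 : ℝ) < (K' : ℝ) := by
    rw [hK']
    exact_mod_cast Nat.succ_pos _
  obtain ⟨R2, δ2, hδ2, hpv⟩ := h2 2 0 (ε / (4 * (K' : ℝ))) (by positivity)
  obtain ⟨δ, hδ⟩ : ∃ δ, δ = min (min δ1 (δ2 / 4)) (ε / (8 * ((S.card : ℝ) + 1))) := ⟨_, rfl⟩
  have hs0 : (0 : ℝ) < (S.card : ℝ) + 1 := by positivity
  have hδ0 : 0 < δ := by rw [hδ]; exact lt_min (lt_min hδ1 (by positivity)) (by positivity)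
  have hδδ1 : δ ≤ δ1 := by rw [hδ]; exact (min_le_left _ _).trans (min_le_left _ _)
  have hδδ2 : δ ≤ δ2 / 4 := by rw [hδ]; exact (min_le_left _ _).trans (min_le_right _ _)
  have hδδ3 : δ * ((S.card : ℝ) + 1) ≤ ε / 8 := by
    have h3 : δ ≤ ε / (8 * ((S.card : ℝ) + 1)) := by rw [hδ]; exact min_le_right _ _
    calc δ * ((S.card : ℝ) + 1) ≤ ε / (8 * ((S.card : ℝ) + 1)) * ((S.card : ℝ) + 1) :=
          mul_le_mul_of_nonneg_right h3 hs0.le
      _ = ε / 8 := by field_simp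
  obtain ⟨Y₄, hY₄⟩ : ∃ Y₄ : ℕ, ∀ Y : ℕ, Y₄ ≤ Y → (12 * 4 ^ S.card : ℝ) ≤ (Y : ℝ) ^ (ε / 4) ∧
      (4 : ℝ) ≤ (Y : ℝ) ^ (δ2 / 2) := by
    have h1 := ((tendsto_rpow_atTop (show (0 : ℝ) < ε / 4 by positivity)).comp
      (tendsto_natCast_atTop_atTop (R := ℝ))).eventually_ge_atTop (12 * 4 ^ S.card : ℝ)
    have h2 := ((tendsto_rpow_atTop (show (0 : ℝ) < δ2 / 2 by positivity)).comp
      (tendsto_natCast_atTop_atTop (R := ℝ))).eventually_ge_atTop (4 : ℝ)
    obtain ⟨Y₄, h3⟩ := Filter.eventually_atTop.1 (h1.and h2)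
    exact ⟨Y₄, h3⟩
  refine ⟨R1 + R2 + 1, 2 * (N * R1) + 1, δ, Y₄ + 2, hδ0, fun Y hY T hT => ?_⟩
  obtain ⟨hY4, hY5⟩ := hY₄ Y (by omega)
  have hY1 : 1 ≤ Y := by omega
  have hYR : (1 : ℝ) ≤ (Y : ℝ) := by exact_mod_cast hY1
  have hYR0 : (0 : ℝ) < (Y : ℝ) := by linarith
  obtain ⟨V, hV⟩ : ∃ V, V = (Y : ℝ) ^ δ := ⟨_, rfl⟩
  have hV1 : 1 ≤ V := by rw [hV]; exact Real.one_le_rpow hYR hδ0.le
  obtain ⟨M, hM⟩ : ∃ M : ℕ, M = ⌈2 * V⌉₊ := ⟨_, rfl⟩
  have hM1 : 2 * V ≤ M := by rw [hM]; exact Nat.le_ceil _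
  have hM2 : (M : ℝ) < 2 * V + 1 := by rw [hM]; exact Nat.ceil_lt_add_one (by linarith)
  have hM3 : (M : ℝ) + 1 ≤ 4 * V := by linarith
  obtain ⟨Y', hY'⟩ : ∃ Y', Y' = Y ^ K' := ⟨_, rfl⟩
  have hY'1 : 1 ≤ Y' := by rw [hY']; exact Nat.one_le_pow _ _ hY1
  have hYY' : Y ≤ Y' := by rw [hY', hK']; exact Nat.le_self_pow (by omega) _
  have hYYR : (Y : ℝ) ≤ Y' := by exact_mod_cast hYY'
  have hVY : ((M : ℝ) + 1) * V ≤ (Y' : ℝ) ^ δ2 := by
    calc ((M : ℝ) + 1) * V ≤ 4 * V * V := mul_le_mul_of_nonneg_right hM3 (by linarith)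
      _ = 4 * (V * V) := by ring
      _ ≤ (Y : ℝ) ^ (δ2 / 2) * (Y : ℝ) ^ (δ2 / 2) := by
          refine mul_le_mul hY5 ?_ (by positivity) (by positivity)
          rw [hV, ← Real.rpow_add hYR0]
          exact Real.rpow_le_rpow_of_exponent_le hYR (by linarith)
      _ = (Y : ℝ) ^ δ2 := by
          rw [← Real.rpow_add hYR0]
          congr 1
          ring
      _ ≤ (Y' : ℝ) ^ δ2 := Real.rpow_le_rpow hYR0.le hYYR hδ2.le
  have hexp' : (Y' : ℝ) ^ (ε / (4 * (K' : ℝ))) = (Y : ℝ) ^ (ε / 4) := by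
    rw [hY', Nat.cast_pow, ← Real.rpow_natCast, ← Real.rpow_mul hYR0.le]
    congr 1
    field_simp
  -- the data
  have hex : ∀ t : ℤ × ℤ × ℤ, ∃ (w : Fin N → ℕ) (e : Fin 2 → Fin N → ℕ) (c z : ℤ) (r : ℕ),
      t ∈ T → Pt S N (R1 + R2 + 1) δ Y t w e c z r := by
    intro t
    by_cases ht : t ∈ T
    · obtain ⟨w, e, c, z, r, h⟩ := (hT t ht).1
      exact ⟨w, e, c, z, r, fun _ => h⟩
    · exact ⟨0, 0, 0, 0, 0, fun h => absurd h ht⟩
  choose w e c z r hP using hex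
  have hcV : ∀ t ∈ T, ((|c t| : ℤ) : ℝ) ≤ Real.exp V := by
    intro t ht
    have h := hP t ht
    rw [hV]
    refine le_trans ?_ h.bz
    have : |c t| ≤ |t.2.2| := by
      rw [h.hz, abs_mul, abs_pow]
      exact le_mul_of_one_le_right (abs_nonneg _) (one_le_pow₀ (Int.one_le_abs h.z0))
    exact_mod_cast this
  have hA0 : (0 : ℝ) ≤ (Y : ℝ) ^ (ε / 4) := by positivity
  have hA1 : (1 : ℝ) ≤ (Y : ℝ) ^ (ε / 4) := Real.one_le_rpow hYR (by positivity)
  -- the number of the `c`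
  have key1 : (T.card : ℝ) ≤ (2 * ((M : ℝ) + 1) ^ S.card) *
      ((Y : ℝ) ^ (ε / 4) * (6 * V * (Y : ℝ) ^ (ε / 4))) := by
    refine fib T c _ _ (by positivity) (fun b hb => ?_) ?_
    · -- fixed `c`
      obtain ⟨T1, hT1⟩ : ∃ T1, T1 = T.filter fun t => c t = b := ⟨_, rfl⟩
      rw [← hT1]
      refine fib T1 (fun t => fun i : Fin 2 => lar R1 (w t) (e t i)) _ _ (by positivity)
        (fun a ha => ?_) ?_
      · -- fixed large parts
        obtain ⟨T2, hT2⟩ : ∃ T2, T2 = T1.filter fun t => (fun i : Fin 2 => lar R1 (w t) (e t i)) = a :=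
          ⟨_, rfl⟩
        rw [← hT2]
        have hmem : ∀ t ∈ T2, t ∈ T ∧ c t = b ∧ lar R1 (w t) (e t 0) = a 0 ∧
            lar R1 (w t) (e t 1) = a 1 := by
          intro t ht
          rw [hT2] at ht
          obtain ⟨ht1, ht2⟩ := Finset.mem_filter.1 ht
          rw [hT1] at ht1
          obtain ⟨ht3, ht4⟩ := Finset.mem_filter.1 ht1
          exact ⟨ht3, ht4, congrFun ht2 0, congrFun ht2 1⟩
        have hrep : ∀ t ∈ T2, ∃ s1 s2 : ℤ, t.1 = s1 * a 0 ∧ t.2.1 = s2 * a 1 ∧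
            |s1| ≤ (Y : ℤ) ^ (N * R1) ∧ |s2| ≤ (Y : ℤ) ^ (N * R1) := by
          intro t ht
          obtain ⟨m1, m2, m3, m4⟩ := hmem t ht
          have h := hP t m1
          refine ⟨t.1.sign * sma R1 (w t) (e t 0), t.2.1.sign * sma R1 (w t) (e t 1), ?_, ?_, ?_, ?_⟩
          · rw [← m3, mul_assoc]
            have : ((sma R1 (w t) (e t 0) : ℕ) : ℤ) * ((lar R1 (w t) (e t 0) : ℕ) : ℤ) =
                ((t.1.natAbs : ℕ) : ℤ) := by
              rw [h.hx, ← sma_mul_lar R1]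
              push_cast
              ring
            rw [this]
            exact (Int.sign_mul_natAbs t.1).symm
          · rw [← m4, mul_assoc]
            have : ((sma R1 (w t) (e t 1) : ℕ) : ℤ) * ((lar R1 (w t) (e t 1) : ℕ) : ℤ) =
                ((t.2.1.natAbs : ℕ) : ℤ) := by
              rw [h.h_y, ← sma_mul_lar R1]
              push_cast
              ring
            rw [this]
            exact (Int.sign_mul_natAbs t.2.1).symm
          · rw [abs_mul, Int.abs_sign_of_ne_zero h.x0, one_mul, Nat.abs_cast]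
            exact_mod_cast sma_le hY1 (w t) (e t 0) h.hw
          · rw [abs_mul, Int.abs_sign_of_ne_zero h.y0, one_mul, Nat.abs_cast]
            exact_mod_cast sma_le hY1 (w t) (e t 1) h.hw
        rcases T2.eq_empty_or_nonempty with hemp | ⟨t0, ht0⟩
        · rw [hemp, Finset.card_empty, Nat.cast_zero]
          positivity
        obtain ⟨q1, q2, q3, q4⟩ := hmem t0 ht0
        have hp0 := hP t0 q1
        obtain ⟨u1, u2, v1, v2, -, -⟩ := hrep t0 ht0
        have ha0 : (a 0 : ℝ) ≤ Real.exp V := by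
          rw [hV]
          refine le_trans ?_ hp0.bx
          have : (a 0 : ℤ) ≤ |t0.1| := by
            rw [v1, abs_mul, Nat.abs_cast]
            refine le_mul_of_one_le_left (Int.natCast_nonneg _) (Int.one_le_abs ?_)
            rintro rfl
            exact hp0.x0 (by rw [v1, zero_mul])
          have h3 : (((a 0 : ℕ) : ℤ) : ℝ) ≤ ((|t0.1| : ℤ) : ℝ) := Int.cast_le.2 this
          rwa [Int.cast_natCast] at h3
        have ha1 : (a 1 : ℝ) ≤ Real.exp V := by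
          rw [hV]
          refine le_trans ?_ hp0.b_y
          have : (a 1 : ℤ) ≤ |t0.2.1| := by
            rw [v2, abs_mul, Nat.abs_cast]
            refine le_mul_of_one_le_left (Int.natCast_nonneg _) (Int.one_le_abs ?_)
            rintro rfl
            exact hp0.y0 (by rw [v2, zero_mul])
          have h3 : (((a 1 : ℕ) : ℤ) : ℝ) ≤ ((|t0.2.1| : ℤ) : ℝ) := Int.cast_le.2 this
          rwa [Int.cast_natCast] at h3
        have hcop : IsCoprime (a 0 : ℤ) (a 1 : ℤ) := by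
          have h3 : IsCoprime t0.1 t0.2.1 := Int.isCoprime_iff_gcd_eq_one.2 hp0.cop
          rw [v1, v2] at h3
          exact (h3.of_mul_left_right).of_mul_right_right
        -- the third term is injective
        have hinj : Set.InjOn (fun t : ℤ × ℤ × ℤ => t.2.2) (T2 : Set (ℤ × ℤ × ℤ)) := by
          intro t ht t' ht' htt
          have ht := Finset.mem_coe.1 ht
          have ht' := Finset.mem_coe.1 ht'
          have htt : t.2.2 = t'.2.2 := htt
          obtain ⟨s1, s2, g1, g2, g3, g4⟩ := hrep t ht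
          obtain ⟨s1', s2', g1', g2', g3', g4'⟩ := hrep t' ht'
          have p1 := hP t (hmem t ht).1
          have p2 := hP t' (hmem t' ht').1
          have hlarge : 2 * ((Y : ℤ) ^ (N * R1)) * ((Y : ℤ) ^ (N * R1)) ≤
              (Y : ℤ) ^ (2 * (N * R1) + 1) := by
            have hY2 : (2 : ℤ) ≤ Y := by exact_mod_cast (by omega : 2 ≤ Y)
            calc 2 * ((Y : ℤ) ^ (N * R1)) * ((Y : ℤ) ^ (N * R1)) =
                2 * ((Y : ℤ) ^ (N * R1) * (Y : ℤ) ^ (N * R1)) := by ring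
              _ ≤ Y * ((Y : ℤ) ^ (N * R1) * (Y : ℤ) ^ (N * R1)) :=
                  mul_le_mul_of_nonneg_right hY2 (by positivity)
              _ = (Y : ℤ) ^ (2 * (N * R1) + 1) := by ring
          have h4 := uniq g1 g2 g1' g2' (by rw [p1.sum, p2.sum, htt]) p1.x0 p1.y0 hcop g3 g4 g3'
            g4' (by
              rcases (hT t (hmem t ht).1).2 with h5 | h5
              · exact Or.inl (lt_of_le_of_lt hlarge h5)
              · exact Or.inr (lt_of_le_of_lt hlarge h5))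
          exact Prod.ext h4.1 (Prod.ext h4.2 htt)
        rw [← Finset.card_image_of_injOn hinj]
        have hb0 : b ≠ 0 := by rw [← q2]; exact hp0.c0
        have h5 := zcount (R2 := R2) (Y' := Y') (M := M) (δ2 := δ2) (V := V) hY'1 hδ2
          (fun D F x1 x2 x3 x4 T hT => hpv Y' hY'1 D F x1 x2 x3 x4 T hT) hM1 hVY hb0 ha0 ha1
          (T2.image fun t => t.2.2) (by
            intro Z hZ
            obtain ⟨t, ht, rfl⟩ := Finset.mem_image.1 hZ
            obtain ⟨m1, m2, m3, m4⟩ := hmem t ht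
            have h := hP t m1
            obtain ⟨s1, s2, g1, g2, g3, g4⟩ := hrep t ht
            have hle : (Y : ℤ) ^ (N * R1) ≤ (Y' : ℤ) := by
              rw [hY', hK']
              exact_mod_cast Nat.pow_le_pow_right hY1 (by omega)
            refine ⟨by rw [hV]; exact h.bz, s1, s2, z t, r t, g3.trans hle, g4.trans hle, ?_, ?_,
              h.z0, ?_, ?_⟩
            · rw [← g1, ← g2]
              exact h.sum
            · rw [← m2]
              exact h.hz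
            · have := h.hr
              omega
            · have := h.hr
              omega)
        rw [hexp'] at h5
        refine h5.trans ?_
        have h6 : ((M : ℝ) + 1) * (Y : ℝ) ^ (ε / 4) ≤ 4 * V * (Y : ℝ) ^ (ε / 4) :=
          mul_le_mul_of_nonneg_right hM3 hA0
        have h7 : (1 : ℝ) * 1 ≤ V * (Y : ℝ) ^ (ε / 4) := mul_le_mul hV1 hA1 (by norm_num)
          (by linarith)
        linarith
      · refine hlp Y hY1 (fun _ => 1) b (fun i => ⟨one_ne_zero, ?_⟩) ?_ ?_ _ fun A hA => ?_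
        · rw [abs_one, Int.cast_one]
          exact Real.one_le_exp (by positivity)
        · obtain ⟨t, ht, htb⟩ := Finset.mem_image.1 hb
          rw [← htb]
          exact (hP t ht).c0
        · obtain ⟨t, ht, htb⟩ := Finset.mem_image.1 hb
          rw [← htb]
          refine (hcV t ht).trans (Real.exp_le_exp.2 ?_)
          rw [hV]
          exact Real.rpow_le_rpow_of_exponent_le hYR hδδ1
        · obtain ⟨t, ht, rfl⟩ := Finset.mem_image.1 hA
          rw [hT1] at ht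
          obtain ⟨ht1, ht2⟩ := Finset.mem_filter.1 ht
          have h3 := (hP t ht1).lh hY1 hδδ1 (by omega : R1 ≤ R1 + R2 + 1) (by omega)
          rw [ht2] at h3
          exact h3
    · have h3 := sunits S hM1 (T.image c) (by
        intro b hb
        obtain ⟨t, ht, rfl⟩ := Finset.mem_image.1 hb
        exact ⟨(hP t ht).c0, (hP t ht).cS, hcV t ht⟩)
      exact_mod_cast h3
  refine key1.trans ?_
  have h3 : ((M : ℝ) + 1) ^ S.card ≤ (4 * V) ^ S.card := pow_le_pow_left₀ (by positivity) hM3 _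
  have h4 : V ^ (S.card + 1) ≤ (Y : ℝ) ^ (ε / 8) := by
    rw [hV, ← Real.rpow_natCast, ← Real.rpow_mul hYR0.le]
    refine Real.rpow_le_rpow_of_exponent_le hYR ?_
    push_cast
    exact hδδ3
  have h5 : (Y : ℝ) ^ (ε / 8) ≤ (Y : ℝ) ^ (ε / 4) :=
    Real.rpow_le_rpow_of_exponent_le hYR (by linarith)
  calc (2 * ((M : ℝ) + 1) ^ S.card) * ((Y : ℝ) ^ (ε / 4) * (6 * V * (Y : ℝ) ^ (ε / 4)))
      ≤ (2 * (4 * V) ^ S.card) * ((Y : ℝ) ^ (ε / 4) * (6 * V * (Y : ℝ) ^ (ε / 4))) := by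
        refine mul_le_mul_of_nonneg_right ?_ (by positivity)
        linarith
    _ = (12 * 4 ^ S.card) * V ^ (S.card + 1) * ((Y : ℝ) ^ (ε / 4) * (Y : ℝ) ^ (ε / 4)) := by
        rw [mul_pow]
        ring
    _ ≤ (Y : ℝ) ^ (ε / 4) * (Y : ℝ) ^ (ε / 4) * ((Y : ℝ) ^ (ε / 4) * (Y : ℝ) ^ (ε / 4)) := by
        refine mul_le_mul_of_nonneg_right ?_ (by positivity)
        exact mul_le_mul hY4 (h4.trans h5) (by positivity) hA0
    _ = (Y : ℝ) ^ ε := by
        rw [← Real.rpow_add hYR0, ← Real.rpow_add hYR0]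
        congr 1
        ring

end Pool.Agent.N741.SU
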